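import Pool.Agent.R689.CondFlat
import Pool.Agent.R689.Ratn

/-!
# Rationalization of groups is not conditionally flat
-/

set_option autoImplicit false

namespace Pool.Agent.Results.MP_a437dc_al.NotConditionallyFlat

open CategoryTheory Pool.Agent.R689.CF Pool.Agent.R689.Ratn

/-- `(L, η)` is rationalization: every `L G` is local (`x ↦ x ^ p` is bijective for every prime
`p`) and every homomorphism from `G` to a local group factors uniquely through `η_G : G → L G`. -/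
def IsRationalization (L : GrpCat.{0} ⥤ GrpCat.{0}) (η : 𝟭 GrpCat.{0} ⟶ L) : Prop :=
  ∀ G : GrpCat.{0}, IsLocalGroup (L.obj G) ∧
    ∀ T : GrpCat.{0}, IsLocalGroup T → ∀ f : G ⟶ T, ∃! g : L.obj G ⟶ T, η.app G ≫ g = f

/-- the rationalization functor -/
noncomputable def Lf : GrpCat.{0} ⥤ GrpCat.{0} where
  obj G := GrpCat.of (LG G)
  map {G H} f := GrpCat.ofHom (lift (isLocalGroup H) ((unit H).comp f.hom))
  map_id G := by
    apply GrpCat.hom_ext
    apply hom_ext (isLocalGroup G)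
    intro x
    rfl
  map_comp {G H K} f g := by
    apply GrpCat.hom_ext
    apply hom_ext (isLocalGroup K)
    intro x
    rfl

/-- the unit of the rationalization functor -/
noncomputable def ηf : 𝟭 GrpCat.{0} ⟶ Lf where
  app G := GrpCat.ofHom (unit G)
  naturality G H f := by
    apply GrpCat.hom_ext
    ext x
    rfl

lemma isRationalization : IsRationalization Lf ηf := by
  intro G
  refine ⟨isLocalGroup G, fun T hT f => ⟨GrpCat.ofHom (lift hT f.hom), ?_, ?_⟩⟩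
  · apply GrpCat.hom_ext
    ext x
    rfl
  · intro g hg
    apply GrpCat.hom_ext
    apply hom_ext hT
    intro x
    exact congrArg (fun k : G ⟶ T => k.hom x) hg

/-- the unit is bijective on local groups -/
lemma bij {L : GrpCat.{0} ⥤ GrpCat.{0}} {η : 𝟭 GrpCat.{0} ⟶ L} (h : IsRationalization L η)
    (T : GrpCat.{0}) (hT : IsLocalGroup T) : Function.Bijective (η.app T).hom := by
  obtain ⟨g, hg, -⟩ := (h T).2 T hT (𝟙 T)
  obtain ⟨k, hk, hk'⟩ := (h T).2 (L.obj T) (h T).1 (η.app T)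
  have h1 : g ≫ η.app T = 𝟙 (L.obj T) := by
    rw [hk' (g ≫ η.app T) (by
      change η.app T ≫ g ≫ η.app T = η.app T
      have h2 : (η.app T ≫ g) ≫ η.app T = η.app T := by
        change η.app T ≫ g = 𝟙 T at hg
        rw [hg]
        exact Category.id_comp (η.app T)
      rwa [Category.assoc] at h2), hk' (𝟙 _) (Category.comp_id _)]
  constructor
  · intro a b hab
    have ha : ∀ a : T, g.hom ((η.app T).hom a) = a := fun a =>
      congrArg (fun k : T ⟶ T => k.hom a) hg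
    rw [← ha a, hab, ha]
  · intro y
    exact ⟨g.hom y, congrArg (fun k : L.obj T ⟶ L.obj T => k.hom y) h1⟩

/-- extensions of local groups are flat -/
lemma flat_of_bij {L : GrpCat.{0} ⥤ GrpCat.{0}} (η : 𝟭 GrpCat.{0} ⟶ L) {N E G : GrpCat.{0}}
    (i : N ⟶ E) (p : E ⟶ G) (h : ShortExact i p) (hN : Function.Bijective (η.app N).hom)
    (hE : Function.Bijective (η.app E).hom) (hG : Function.Bijective (η.app G).hom) :
    Flat L i p := by
  have hi : ∀ n : N, (L.map i).hom ((η.app N).hom n) = (η.app E).hom (i.hom n) := fun n =>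
    (congrArg (fun k : N ⟶ L.obj E => k.hom n) (η.naturality i)).symm
  have hp : ∀ e : E, (L.map p).hom ((η.app E).hom e) = (η.app G).hom (p.hom e) := fun e =>
    (congrArg (fun k : E ⟶ L.obj G => k.hom e) (η.naturality p)).symm
  refine ⟨?_, ?_, ?_⟩
  · intro x y hxy
    obtain ⟨a, rfl⟩ := hN.2 x
    obtain ⟨b, rfl⟩ := hN.2 y
    rw [hi, hi] at hxy
    rw [h.1 (hE.1 hxy)]
  · intro y
    obtain ⟨g, rfl⟩ := hG.2 y
    obtain ⟨e, rfl⟩ := h.2.1 g
    exact ⟨_, hp e⟩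
  · ext x
    obtain ⟨e, rfl⟩ := hE.2 x
    constructor
    · rintro ⟨y, hy⟩
      obtain ⟨n, rfl⟩ := hN.2 y
      rw [hi] at hy
      have h1 : i.hom n = e := hE.1 hy
      have h2 : e ∈ p.hom.ker := by
        rw [← h.2.2]
        exact ⟨n, h1⟩
      rw [MonoidHom.mem_ker] at h2 ⊢
      rw [hp, h2, map_one]
    · intro hx
      rw [MonoidHom.mem_ker, hp] at hx
      have h2 : e ∈ p.hom.ker := by
        rw [MonoidHom.mem_ker]
        apply hG.1
        rw [hx, map_one]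
      rw [← h.2.2] at h2
      obtain ⟨n, rfl⟩ := h2
      exact ⟨_, hi n⟩

/-- the group `ℝ ⋊ ℚ` with `q ∈ ℚ` acting as multiplication by `2 ^ q` -/
@[ext] structure EE where
  /-- the real part -/
  v : ℝ
  /-- the rational part -/
  q : ℚ

/-- the number `2 ^ q` -/
noncomputable def tw (q : ℚ) : ℝ := (2 : ℝ) ^ (q : ℝ)

lemma tw_pos (q : ℚ) : 0 < tw q := Real.rpow_pos_of_pos two_pos _

lemma tw_add (q r : ℚ) : tw (q + r) = tw q * tw r := by
  rw [tw, Rat.cast_add, Real.rpow_add two_pos]; rfl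

lemma tw_zero : tw 0 = 1 := by rw [tw, Rat.cast_zero, Real.rpow_zero]

lemma tw_neg (q : ℚ) : tw (-q) * tw q = 1 := by rw [← tw_add, neg_add_cancel, tw_zero]

lemma tw_int (k : ℤ) : tw k = (((2 : ℚ) ^ k : ℚ) : ℝ) := by
  rw [tw, Rat.cast_intCast, Real.rpow_intCast]; push_cast; rfl

lemma tw_half : tw (1 / 2) = √2 := by
  rw [tw, Real.sqrt_eq_rpow]; push_cast; rfl

noncomputable instance : Mul EE := ⟨fun x y => ⟨x.v + tw x.q * y.v, x.q + y.q⟩⟩
noncomputable instance : One EE := ⟨⟨0, 0⟩⟩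
noncomputable instance : Inv EE := ⟨fun x => ⟨-(tw (-x.q) * x.v), -x.q⟩⟩

lemma mul_v (x y : EE) : (x * y).v = x.v + tw x.q * y.v := rfl
lemma mul_q (x y : EE) : (x * y).q = x.q + y.q := rfl
lemma one_v : (1 : EE).v = 0 := rfl
lemma one_q : (1 : EE).q = 0 := rfl
lemma inv_v (x : EE) : (x⁻¹).v = -(tw (-x.q) * x.v) := rfl
lemma inv_q (x : EE) : (x⁻¹).q = -x.q := rfl

noncomputable instance : Group EE :=
  Group.ofLeftAxioms
    (by
      intro x y z
      ext
      · simp only [mul_v, mul_q, tw_add]; ring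
      · simp only [mul_q]; ring)
    (by
      intro x
      ext
      · simp only [mul_v, one_v, one_q, tw_zero]; ring
      · simp only [mul_q, one_q]; ring)
    (by
      intro x
      ext
      · simp only [mul_v, inv_v, one_v, inv_q]; ring
      · simp only [mul_q, inv_q, one_q]; ring)

lemma pow_q (x : EE) (n : ℕ) : (x ^ n).q = n * x.q := by
  induction n with
  | zero => rw [pow_zero, one_q, Nat.cast_zero, zero_mul]
  | succ n ih => rw [pow_succ, mul_q, ih]; push_cast; ring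

lemma pow_v (x : EE) (n : ℕ) : (x ^ n).v = (∑ i ∈ Finset.range n, tw (i * x.q)) * x.v := by
  induction n with
  | zero => rw [pow_zero, one_v, Finset.range_zero, Finset.sum_empty, zero_mul]
  | succ n ih => rw [pow_succ, mul_v, ih, pow_q, Finset.sum_range_succ]; ring

lemma sum_pos (q : ℚ) {n : ℕ} (hn : n ≠ 0) : 0 < ∑ i ∈ Finset.range n, tw (i * q) :=
  Finset.sum_pos (fun _ _ => tw_pos _) ⟨0, Finset.mem_range.2 (Nat.pos_of_ne_zero hn)⟩

lemma local_E : IsLocalGroup EE := by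
  intro p hp
  have hp0 : (p : ℚ) ≠ 0 := Nat.cast_ne_zero.2 hp.ne_zero
  constructor
  · intro x y hxy
    have h1 : (x ^ p).q = (y ^ p).q := congrArg EE.q hxy
    have h2 : (x ^ p).v = (y ^ p).v := congrArg EE.v hxy
    rw [pow_q, pow_q] at h1
    have h3 : x.q = y.q := mul_left_cancel₀ hp0 h1
    rw [pow_v, pow_v, h3] at h2
    exact EE.ext (mul_left_cancel₀ (sum_pos y.q hp.ne_zero).ne' h2) h3
  · intro y
    refine ⟨⟨y.v / (∑ i ∈ Finset.range p, tw (i * (y.q / p))), y.q / p⟩, ?_⟩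
    apply EE.ext
    · change (EE.mk _ _ ^ p).v = _
      rw [pow_v]
      exact mul_div_cancel₀ _ (sum_pos _ hp.ne_zero).ne'
    · change (EE.mk _ _ ^ p).q = _
      rw [pow_q]
      exact mul_div_cancel₀ _ hp0

lemma local_R : IsLocalGroup (Multiplicative ℝ) := by
  intro p hp
  have hp0 : (p : ℝ) ≠ 0 := Nat.cast_ne_zero.2 hp.ne_zero
  constructor
  · intro x y hxy
    have h1 : p • x.toAdd = p • y.toAdd := congrArg Multiplicative.toAdd hxy
    rw [nsmul_eq_mul, nsmul_eq_mul] at h1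
    have h2 : x.toAdd = y.toAdd := mul_left_cancel₀ hp0 h1
    exact congrArg Multiplicative.ofAdd h2
  · intro y
    refine ⟨Multiplicative.ofAdd (y.toAdd / p), ?_⟩
    have h1 : p • (y.toAdd / p) = y.toAdd := by
      rw [nsmul_eq_mul]; exact mul_div_cancel₀ _ hp0
    exact congrArg Multiplicative.ofAdd h1

lemma local_Q : IsLocalGroup (Multiplicative ℚ) := by
  intro p hp
  have hp0 : (p : ℚ) ≠ 0 := Nat.cast_ne_zero.2 hp.ne_zero
  constructor
  · intro x y hxy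
    have h1 : p • x.toAdd = p • y.toAdd := congrArg Multiplicative.toAdd hxy
    rw [nsmul_eq_mul, nsmul_eq_mul] at h1
    have h2 : x.toAdd = y.toAdd := mul_left_cancel₀ hp0 h1
    exact congrArg Multiplicative.ofAdd h2
  · intro y
    refine ⟨Multiplicative.ofAdd (y.toAdd / p), ?_⟩
    have h1 : p • (y.toAdd / p) = y.toAdd := by
      rw [nsmul_eq_mul]; exact mul_div_cancel₀ _ hp0
    exact congrArg Multiplicative.ofAdd h1

/-- the inclusion `ℝ → ℝ ⋊ ℚ` -/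
noncomputable def iHom : Multiplicative ℝ →* EE where
  toFun v := ⟨v.toAdd, 0⟩
  map_one' := rfl
  map_mul' v w := by
    apply EE.ext
    · change (v * w).toAdd = v.toAdd + tw 0 * w.toAdd
      rw [tw_zero, one_mul, toAdd_mul]
    · change (0 : ℚ) = 0 + 0
      rw [add_zero]

/-- the projection `ℝ ⋊ ℚ → ℚ` -/
noncomputable def pHom : EE →* Multiplicative ℚ where
  toFun x := Multiplicative.ofAdd x.q
  map_one' := rfl
  map_mul' _ _ := rfl

/-- `ℝ` -/
abbrev Ng : GrpCat.{0} := GrpCat.of (Multiplicative ℝ)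
/-- `ℝ ⋊ ℚ` -/
noncomputable abbrev Eg : GrpCat.{0} := GrpCat.of EE
/-- `ℚ` -/
abbrev Gg : GrpCat.{0} := GrpCat.of (Multiplicative ℚ)
/-- `ℤ` -/
abbrev Hg : GrpCat.{0} := GrpCat.of (Multiplicative ℤ)
/-- `ℝ → ℝ ⋊ ℚ` -/
noncomputable abbrev ig : Ng ⟶ Eg := GrpCat.ofHom iHom
/-- `ℝ ⋊ ℚ → ℚ` -/
noncomputable abbrev pg : Eg ⟶ Gg := GrpCat.ofHom pHom
/-- `ℤ → ℚ` -/
noncomputable abbrev fg : Hg ⟶ Gg := GrpCat.ofHom (AddMonoidHom.toMultiplicative (Int.castAddHom ℚ))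

lemma shortExact_g : ShortExact ig pg := by
  refine ⟨?_, ?_, ?_⟩
  · intro a b hab
    exact congrArg EE.v hab
  · intro y
    exact ⟨⟨0, y⟩, rfl⟩
  · ext x
    constructor
    · rintro ⟨y, rfl⟩
      rfl
    · intro hx
      have h1 : x.q = 0 := hx
      exact ⟨Multiplicative.ofAdd x.v, EE.ext rfl h1.symm⟩

lemma pb_int (x : pbSub pg fg) : x.1.1.q = ((Multiplicative.toAdd x.1.2 : ℤ) : ℚ) := x.2

lemma exists_s : ∃ s : ℝ →ₗ[ℚ] ℚ, s 1 = 1 := by
  obtain ⟨s, hs⟩ := LinearMap.exists_leftInverse_of_injective (Algebra.linearMap ℚ ℝ)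
    (LinearMap.ker_eq_bot.2 (algebraMap ℚ ℝ).injective)
  refine ⟨s, ?_⟩
  have h1 := congrArg (fun k : ℚ →ₗ[ℚ] ℚ => k 1) hs
  have h2 : s (algebraMap ℚ ℝ 1) = 1 := h1
  rwa [map_one] at h2

/-- the homomorphism `ℝ ⋊ ℤ → ℝ ⋊ ℚ` induced by `s` -/
noncomputable def F2 (s : ℝ →ₗ[ℚ] ℚ) : pbSub pg fg →* EE where
  toFun x := ⟨(s x.1.1.v : ℝ), x.1.1.q⟩
  map_one' := by
    apply EE.ext
    · change ((s 0 : ℚ) : ℝ) = 0
      rw [map_zero, Rat.cast_zero]
    · rfl
  map_mul' x y := by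
    apply EE.ext
    · change ((s (x.1.1.v + tw x.1.1.q * y.1.1.v) : ℚ) : ℝ) =
        (s x.1.1.v : ℝ) + tw x.1.1.q * (s y.1.1.v : ℝ)
      rw [pb_int, tw_int, map_add]
      have : (((2 : ℚ) ^ (Multiplicative.toAdd x.1.2 : ℤ) : ℚ) : ℝ) * y.1.1.v =
          ((2 : ℚ) ^ (Multiplicative.toAdd x.1.2 : ℤ)) • y.1.1.v := by
        rw [Rat.smul_def]
      rw [this, map_smul, smul_eq_mul, Rat.cast_add, Rat.cast_mul]
    · rfl

/-- the element `t` -/
noncomputable def t : pbSub pg fg :=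
  ⟨((⟨0, 1⟩ : EE), Multiplicative.ofAdd (1 : ℤ)), by
    change Multiplicative.ofAdd (1 : ℚ) = Multiplicative.ofAdd ((1 : ℤ) : ℚ)
    rw [Int.cast_one]⟩

lemma sq_eq {y : EE} (h : y ^ 2 = ⟨0, 1⟩) : y = ⟨0, 1 / 2⟩ := by
  apply (local_E 2 Nat.prime_two).1
  change y ^ 2 = _ ^ 2
  rw [h]
  apply EE.ext
  · rw [pow_v, mul_zero]
  · rw [pow_q]; norm_num

lemma conj_eq (v : ℝ) : (⟨0, 1 / 2⟩ : EE) * ⟨v, 0⟩ * (⟨0, 1 / 2⟩ : EE)⁻¹ = ⟨√2 * v, 0⟩ := by
  apply EE.ext
  · rw [mul_v, mul_v, mul_q, inv_v, tw_half]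
    simp only [mul_zero, neg_zero, add_zero, zero_add]
  · rw [mul_q, mul_q, inv_q]; norm_num

lemma not_conditionallyFlat {L : GrpCat.{0} ⥤ GrpCat.{0}} {η : 𝟭 GrpCat.{0} ⟶ L}
    (h : IsRationalization L η) : ¬ ConditionallyFlat L := by
  intro hc
  have hN := bij h Ng local_R
  obtain ⟨hf1, hf2, hf3⟩ := hc Ng Eg Gg ig pg shortExact_g
    (flat_of_bij η ig pg shortExact_g hN (bij h Eg local_E) (bij h Gg local_Q)) Hg fg
  obtain ⟨s, hs⟩ := exists_s
  set E' : GrpCat.{0} := pb pg fg with hE'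
  set i' : Ng ⟶ E' := pbIncl ig pg shortExact_g fg with hi'
  -- naturality
  have hi : ∀ n : Ng, (L.map i').hom ((η.app Ng).hom n) = (η.app E').hom (i'.hom n) := fun n =>
    (congrArg (fun k : Ng ⟶ L.obj E' => k.hom n) (η.naturality i')).symm
  -- the square root
  obtain ⟨x, hx⟩ := ((h E').1 2 Nat.prime_two).2 ((η.app E').hom t)
  change x ^ 2 = (η.app E').hom t at hx
  -- the conjugation
  have key : ∀ v : Ng, ∃ w : Ng, x * (η.app E').hom (i'.hom v) * x⁻¹ = (η.app E').hom (i'.hom w) := by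
    intro v
    have h1 : (η.app E').hom (i'.hom v) ∈ (L.map (pbSnd pg fg)).hom.ker := by
      rw [← hf3, ← hi]
      exact ⟨_, rfl⟩
    have h2 := (inferInstance : (L.map (pbSnd pg fg)).hom.ker.Normal).conj_mem _ h1 x
    rw [← hf3] at h2
    obtain ⟨y, hy⟩ := h2
    obtain ⟨w, rfl⟩ := hN.2 y
    exact ⟨w, hy.symm.trans (hi w)⟩
  obtain ⟨g1, hg1, -⟩ := (h E').2 Eg local_E (pbFst pg fg)
  obtain ⟨g2, hg2, -⟩ := (h E').2 Eg local_E (GrpCat.ofHom (F2 s))
  have hg1' : ∀ z : E', g1.hom ((η.app E').hom z) = (pbFst pg fg).hom z := fun z =>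
    congrArg (fun k : E' ⟶ Eg => k.hom z) hg1
  have hg2' : ∀ z : E', g2.hom ((η.app E').hom z) = F2 s z := fun z =>
    congrArg (fun k : E' ⟶ Eg => k.hom z) hg2
  have hx1 : g1.hom x = ⟨0, 1 / 2⟩ := by
    apply sq_eq
    rw [← map_pow, hx]
    exact hg1' t
  have hx2 : g2.hom x = ⟨0, 1 / 2⟩ := by
    apply sq_eq
    rw [← map_pow, hx]
    refine (hg2' t).trans ?_
    apply EE.ext
    · change ((s 0 : ℚ) : ℝ) = 0
      rw [map_zero, Rat.cast_zero]
    · rfl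
  obtain ⟨w, hw⟩ := key (Multiplicative.ofAdd (1 : ℝ))
  have e1 := congrArg g1.hom hw
  rw [map_mul, map_mul, map_inv, hx1, hg1', hg1'] at e1
  have e2 := congrArg g2.hom hw
  rw [map_mul, map_mul, map_inv, hx2, hg2', hg2'] at e2
  have e1' : (⟨0, 1 / 2⟩ : EE) * ⟨1, 0⟩ * (⟨0, 1 / 2⟩ : EE)⁻¹ = ⟨w.toAdd, 0⟩ := e1
  have e2' : (⟨0, 1 / 2⟩ : EE) * ⟨(s 1 : ℚ), 0⟩ * (⟨0, 1 / 2⟩ : EE)⁻¹ = ⟨(s w.toAdd : ℚ), 0⟩ := e2
  rw [conj_eq] at e1' e2'
  have f1 : √2 * 1 = w.toAdd := congrArg EE.v e1'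
  have f2 : √2 * (s 1 : ℚ) = (s w.toAdd : ℚ) := congrArg EE.v e2'
  rw [hs, Rat.cast_one, mul_one] at f2
  exact irrational_sqrt_two ⟨s w.toAdd, f2.symm⟩

/-- Rationalization of groups exists, and it is not conditionally flat. -/
theorem result :
    (∃ (L : GrpCat.{0} ⥤ GrpCat.{0}) (η : 𝟭 GrpCat.{0} ⟶ L), IsRationalization L η) ∧
    ∀ (L : GrpCat.{0} ⥤ GrpCat.{0}) (η : 𝟭 GrpCat.{0} ⟶ L), IsRationalization L η →
      ¬ ConditionallyFlat L :=
  ⟨⟨Lf, ηf, isRationalization⟩, fun _ _ h => not_conditionallyFlat h⟩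

end Pool.Agent.Results.MP_a437dc_al.NotConditionallyFlat
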